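import Pool.Agent.Helper63.PL.Goals

set_option autoImplicit false

open MeasureTheory Set Filter Topology
open scoped ENNReal ContDiff

namespace Pool.Agent.Helper63.PL

theorem consts (b w : ℝ) (hb : 0 < b) (hw : 0 < w) (hbw : (√2 - 1) * b < w) :
    ∃ θ Λ K m κ δ : ℝ, 0 < θ ∧ θ < 1 ∧ 0 < Λ ∧ 1 / (θ * w) < Λ ∧ Λ < K ∧ 0 < κ ∧ κ < 1 ∧
      0 < m ∧ 0 < δ ∧ (√2 - 1) * (b + δ) < m * (1 - κ) / K ∧ m < 1 - δ * Λ := by
  have h2 : (1 : ℝ) < √2 := by
    rw [show (1 : ℝ) = √1 by simp]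
    exact Real.sqrt_lt_sqrt (by norm_num) (by norm_num)
  set c : ℝ := (√2 - 1) * b with hc
  have hcpos : 0 < c := mul_pos (by linarith) hb
  set e : ℝ := (w - c) / (2 * (5 * w + c)) with he
  have hden : 0 < 2 * (5 * w + c) := by positivity
  have he0 : 0 < e := div_pos (by linarith) hden
  have he1 : e < 1 / 10 := by
    rw [he, div_lt_div_iff₀ hden (by norm_num)]
    nlinarith
  have hkey : c * (1 + e) < (1 - 5 * e) * w := by
    have : e * (2 * (5 * w + c)) = w - c := by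
      rw [he]; field_simp
    nlinarith
  have he' : 0 < 1 - e := by linarith
  have hbern : 1 - 5 * e ≤ (1 - e) ^ 5 := by
    have := one_add_mul_le_pow (a := -e) (by linarith) 5
    have h3 : (1 + -e) ^ 5 = (1 - e) ^ 5 := by ring
    rw [h3] at this
    push_cast at this
    linarith
  have hkey2 : c * (1 + e) < (1 - e) ^ 5 * w :=
    lt_of_lt_of_le hkey (mul_le_mul_of_nonneg_right hbern hw.le)
  refine ⟨1 - e, 1 / ((1 - e) ^ 2 * w), 1 / ((1 - e) ^ 3 * w), 1 - e, e,
    min (e * b) (e * ((1 - e) ^ 2 * w) / 2), he', by linarith, by positivity, ?_, ?_, he0,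
    by linarith, he', ?_, ?_, ?_⟩
  · apply one_div_lt_one_div_of_lt (by positivity)
    apply mul_lt_mul_of_pos_right _ hw
    nlinarith
  · apply one_div_lt_one_div_of_lt (by positivity)
    apply mul_lt_mul_of_pos_right _ hw
    have : 0 < (1 - e) ^ 2 := by positivity
    nlinarith
  · exact lt_min (by positivity) (by positivity)
  · have h1 : min (e * b) (e * ((1 - e) ^ 2 * w) / 2) ≤ e * b := min_le_left _ _
    have h3 : (1 - e) * (1 - e) / (1 / ((1 - e) ^ 3 * w)) = (1 - e) ^ 5 * w := by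
      field_simp
    rw [h3]
    refine lt_of_le_of_lt ?_ hkey2
    have : (√2 - 1) * (b + min (e * b) (e * ((1 - e) ^ 2 * w) / 2)) ≤ (√2 - 1) * (b + e * b) :=
      mul_le_mul_of_nonneg_left (by linarith) (by linarith)
    calc _ ≤ (√2 - 1) * (b + e * b) := this
      _ = c * (1 + e) := by rw [hc]; ring
  · have h1 : min (e * b) (e * ((1 - e) ^ 2 * w) / 2) ≤ e * ((1 - e) ^ 2 * w) / 2 :=
      min_le_right _ _
    have h3 : (e * ((1 - e) ^ 2 * w) / 2) * (1 / ((1 - e) ^ 2 * w)) = e / 2 := by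
      field_simp
    have h4 : min (e * b) (e * ((1 - e) ^ 2 * w) / 2) * (1 / ((1 - e) ^ 2 * w)) ≤ e / 2 := by
      rw [← h3]
      exact mul_le_mul_of_nonneg_right h1 (by positivity)
    linarith

theorem large (B V C Λ K m τ r : ℝ) (hB : 1 ≤ B) (hV : 0 < V) (hΛ : 0 < Λ) (hK : Λ < K)
    (hm : m < τ) (hr : 0 < r) (hrΛ : r < Λ) :
    ∃ p₀ : ℝ, ∀ P : ℝ, p₀ ≤ P → B ^ (1 / P) * Λ ≤ K ∧ m * V ^ (1 / P) < τ ∧
      C * r ^ P < Λ ^ P := by
  have h0 : Tendsto (fun P : ℝ => 1 / P) atTop (𝓝 0) := by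
    simpa using tendsto_inv_atTop_zero (𝕜 := ℝ)
  have hb : Tendsto (fun P : ℝ => B ^ (1 / P)) atTop (𝓝 1) := by
    have := (Real.continuous_const_rpow (a := B) (by positivity)).tendsto 0 |>.comp h0
    simpa [Function.comp_def] using this
  have hv : Tendsto (fun P : ℝ => V ^ (1 / P)) atTop (𝓝 1) := by
    have := (Real.continuous_const_rpow (a := V) (by positivity)).tendsto 0 |>.comp h0
    simpa [Function.comp_def] using this
  have e1 : ∀ᶠ P : ℝ in atTop, B ^ (1 / P) * Λ < K := by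
    have : Tendsto (fun P : ℝ => B ^ (1 / P) * Λ) atTop (𝓝 (1 * Λ)) := hb.mul_const _
    rw [one_mul] at this
    exact this.eventually_lt_const hK
  have e2 : ∀ᶠ P : ℝ in atTop, m * V ^ (1 / P) < τ := by
    have : Tendsto (fun P : ℝ => m * V ^ (1 / P)) atTop (𝓝 (m * 1)) := hv.const_mul _
    rw [mul_one] at this
    exact this.eventually_lt_const hm
  have e3 : ∀ᶠ P : ℝ in atTop, C * (r / Λ) ^ P < 1 := by
    have h1 : Tendsto (fun P : ℝ => (r / Λ) ^ P) atTop (𝓝 0) :=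
      tendsto_rpow_atTop_of_base_lt_one _ (by have : 0 < r / Λ := by positivity
                                              linarith) ((div_lt_one hΛ).2 hrΛ)
    have : Tendsto (fun P : ℝ => C * (r / Λ) ^ P) atTop (𝓝 (C * 0)) := h1.const_mul _
    rw [mul_zero] at this
    exact this.eventually_lt_const one_pos
  obtain ⟨p₀, h⟩ := ((e1.and e2).and e3).exists_forall_of_atTop
  refine ⟨p₀, fun P hP => ?_⟩
  obtain ⟨⟨a1, a2⟩, a3⟩ := h P hP
  refine ⟨a1.le, a2, ?_⟩
  rw [Real.div_rpow hr.le hΛ.le, ← mul_div_assoc] at a3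
  exact (div_lt_one (Real.rpow_pos_of_pos hΛ P)).1 a3


theorem contOn {X Y : Type} [PseudoMetricSpace X] [PseudoMetricSpace Y] (A : Set X) (g : X → Y)
    (c : ℝ) (h : ∀ q ∈ A, ∀ q' ∈ A, dist (g q) (g q') ≤ c * dist q q') : ContinuousOn g A := by
  have : LipschitzOnWith (Real.toNNReal c) g A := by
    apply LipschitzOnWith.of_dist_le_mul
    intro x hx y hy
    refine (h x hx y hy).trans ?_
    exact mul_le_mul_of_nonneg_right (Real.le_coe_toNNReal c) dist_nonneg
  exact this.continuousOn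

/-- A family of functions, odd in the parameter, with values in the admissible class, gives an odd
map to the sphere. -/
theorem oddMap_of {N : ℕ} (hN : 0 < N) {X : Type} [PseudoMetricSpace X] [Neg X] (A : Set X)
    (hA : ∀ q ∈ A, -q ∈ A) (co : CoStmt) (ph : PhStmt)
    (F : X → E N → ℝ) (κ K R m c : ℝ) (h1 : 0 < κ) (h2 : κ < 1) (h3 : 0 < K) (h4 : 0 < R)
    (h5 : 0 < m) (h6 : (√2 - 1) * R < m * (1 - κ) / K)
    (hneg : ∀ q ∈ A, ∀ x, F (-q) x = - F q x)
    (hcont : ∀ q ∈ A, Continuous (F q))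
    (hsupp : ∀ q ∈ A, ∀ x, R < ‖x‖ → F q x = 0)
    (hlip : ∀ q ∈ A, ∀ x y, |F q x - F q y| ≤ K * ‖x - y‖)
    (hbig : ∀ q ∈ A, ∃ x, m ≤ |F q x|)
    (hc : 0 ≤ c)
    (hF : ∀ q ∈ A, ∀ q' ∈ A, ∀ x, |F q x - F q' x| ≤ c * dist q q') :
    OddMap A (N + 1) := by
  obtain ⟨coA, coB⟩ := co
  obtain ⟨C, hC, coC⟩ := coB N hN κ R h1 h2 h4
  have hbdd : ∀ q ∈ A, BddAbove (Set.range (F q)) := by
    intro q hq
    have hcs : HasCompactSupport (F q) := by
      apply HasCompactSupport.intro (isCompact_closedBall (0 : E N) R)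
      intro x hx
      apply hsupp q hq
      rw [Metric.mem_closedBall, dist_zero_right] at hx
      exact not_le.1 hx
    exact (hcont q hq).bddAbove_range_of_hasCompactSupport hcs
  -- the negative function
  have hFn : ∀ q ∈ A, (fun x => - F q x) = F (-q) := by
    intro q hq
    funext x
    exact (hneg q hq x).symm
  let e : (ℝ × E N) ≃L[ℝ] E (N + 1) := ContinuousLinearEquiv.ofFinrankEq (by
    simp [Module.finrank_prod, add_comm])
  let G : X → ℝ × E N := fun q =>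
    (Mx (F q) - Mx (fun x => - F q x), cen κ (F q) - cen κ (fun x => - F q x))
  have hG0 : ∀ q ∈ A, G q ≠ 0 := by
    intro q hq h0
    have ha : Mx (F q) - Mx (fun x => - F q x) = 0 := congrArg Prod.fst h0
    have hb : cen κ (F q) - cen κ (fun x => - F q x) = 0 := congrArg Prod.snd h0
    exact ph N hN κ K R m h1 h2 h3 h4 h5 h6 (F q) (hlip q hq) (hsupp q hq) (hbig q hq)
      (sub_eq_zero.1 ha) (sub_eq_zero.1 hb)
  have hGodd : ∀ q ∈ A, G (-q) = - G q := by
    intro q hq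
    have e1 : F (-q) = fun x => - F q x := (hFn q hq).symm
    have e2 : (fun x => - F (-q) x) = F q := by
      rw [e1]; funext x; simp
    apply Prod.ext
    · show Mx (F (-q)) - Mx (fun x => - F (-q) x) = -(Mx (F q) - Mx (fun x => - F q x))
      rw [e2, e1]; ring
    · show cen κ (F (-q)) - cen κ (fun x => - F (-q) x) = -(cen κ (F q) - cen κ (fun x => - F q x))
      rw [e2, e1]; abel
  have hM : ContinuousOn (fun q => Mx (F q)) A := by
    apply contOn A _ c
    intro q hq q' hq'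
    rw [Real.dist_eq]
    exact coA N _ _ _ (hbdd q hq) (hbdd q' hq') (hF q hq q' hq')
  have hCn : ContinuousOn (fun q => cen κ (F q)) A := by
    apply contOn A _ (C * c)
    intro q hq q' hq'
    rw [dist_eq_norm, mul_assoc]
    exact coC _ _ (hcont q hq) (hcont q' hq') (hsupp q hq) (hsupp q' hq') _ (hF q hq q' hq')
  have hM' : ContinuousOn (fun q => Mx (fun x => - F q x)) A := by
    apply contOn A _ c
    intro q hq q' hq'
    rw [Real.dist_eq]
    refine coA N _ _ _ ?_ ?_ ?_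
    · rw [hFn q hq]; exact hbdd _ (hA q hq)
    · rw [hFn q' hq']; exact hbdd _ (hA q' hq')
    · intro x
      have := hF q hq q' hq' x
      rwa [show - F q x - - F q' x = -(F q x - F q' x) by ring, abs_neg]
  have hCn' : ContinuousOn (fun q => cen κ (fun x => - F q x)) A := by
    apply contOn A _ (C * c)
    intro q hq q' hq'
    rw [dist_eq_norm, mul_assoc]
    refine coC _ _ (hcont q hq).neg (hcont q' hq').neg ?_ ?_ _ ?_
    · intro x hx; simp [hsupp q hq x hx]
    · intro x hx; simp [hsupp q' hq' x hx]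
    · intro x
      have := hF q hq q' hq' x
      show |- F q x - - F q' x| ≤ _
      rwa [show - F q x - - F q' x = -(F q x - F q' x) by ring, abs_neg]
  have hGc : ContinuousOn G A := (hM.sub hM').prodMk (hCn.sub hCn')
  have hne : ∀ q ∈ A, ‖e (G q)‖ ≠ 0 := by
    intro q hq h0
    rw [norm_eq_zero] at h0
    have : G q = 0 := by
      have := e.map_eq_zero_iff.1 h0
      exact this
    exact hG0 q hq this
  have hec : ContinuousOn (fun q => e (G q)) A := e.continuous.comp_continuousOn hGc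
  refine ⟨fun q => (‖e (G q)‖)⁻¹ • e (G q), ?_, ?_, ?_⟩
  · exact (hec.norm.inv₀ hne).smul hec
  · intro q hq
    show (‖e (G (-q))‖)⁻¹ • e (G (-q)) = - ((‖e (G q)‖)⁻¹ • e (G q))
    rw [hGodd q hq, map_neg, norm_neg, smul_neg]
  · intro q hq
    show ‖(‖e (G q)‖)⁻¹ • e (G q)‖ = 1
    rw [norm_smul, norm_inv, norm_norm, inv_mul_cancel₀ (hne q hq)]

theorem final (ph : PhStmt) (co : CoStmt) (ke : KeStmt) (su : SuStmt) (li : LiStmt) (lp : LpStmt)
    (up : UpStmt) (ge : GeStmt) : FinalStmt := by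
  intro N hN i a b hb hab
  have hN0 : 0 < N := by omega
  obtain ⟨w, x₀, hw, hbw, hball⟩ := ge N i a b hb hab
  obtain ⟨θ, Λ, K, m, κ, δ, hθ0, hθ1, hΛ, hθΛ, hΛK, hκ0, hκ1, hm, hδ, hgeo, hmδ⟩ :=
    consts b w hb hw hbw
  obtain ⟨C, hC⟩ := up N hN0 (half (Rad N a b) i) x₀ w θ hw hθ0 hθ1 hball
  obtain ⟨keA, keB⟩ := ke
  obtain ⟨B, hB, ρ, hρ⟩ := keA N δ hδ
  set V : ℝ := (volume (Metric.closedBall (0 : E N) (b + δ))).toReal with hV
  have hVpos : 0 < V := by
    rw [hV]
    apply ENNReal.toReal_pos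
    · exact (Metric.measure_closedBall_pos volume _ (by positivity)).ne'
    · exact measure_closedBall_lt_top.ne
  obtain ⟨p₀, hp₀⟩ := large B V C Λ K m (1 - δ * Λ) (1 / (θ * w)) hB hVpos hΛ hΛK hmδ
    (by positivity) hθΛ
  refine ⟨max p₀ 1, ?_⟩
  intro p _ hp hpp
  set P : ℝ := p.toReal with hP
  have hP1 : 1 ≤ P := (le_max_right _ _).trans hpp
  obtain ⟨a1, a2, a3⟩ := hp₀ P ((le_max_left _ _).trans hpp)
  obtain ⟨kb1, kb2, kb3⟩ := keB N δ B ρ hδ hρ p hp
  have hDsub : Rad N a b ⊆ Metric.ball (0 : E N) b := by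
    intro x hx
    rw [Metric.mem_ball, dist_zero_right]
    exact hx.2
  refine lt_of_lt_of_le (lt_of_le_of_lt (hC p hp)
    ((ENNReal.ofReal_lt_ofReal_iff (Real.rpow_pos_of_pos hΛ P)).2 a3)) ?_
  unfold lam
  refine le_iInf₂ fun A hA => ?_
  obtain ⟨hAs, hAc, hAn, hAg⟩ := hA
  by_contra hcon
  rw [not_le] at hcon
  have hlt : ∀ q ∈ A, ‖q.2‖ < Λ := by
    intro q hq
    have h1 : energy q < ENNReal.ofReal (Λ ^ P) :=
      lt_of_le_of_lt (le_iSup₂ (f := fun q (_ : q ∈ A) => energy q) q hq) hcon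
    unfold energy at h1
    have h2 := (ENNReal.ofReal_lt_ofReal_iff (Real.rpow_pos_of_pos hΛ P)).1 h1
    exact lt_of_not_ge fun hge => absurd h2
      (not_lt.2 (Real.rpow_le_rpow hΛ.le hge (by positivity)))
  have hBP : 0 < B ^ (1 / P) := Real.rpow_pos_of_pos (by linarith) _
  refine hAg (N + 1) (by omega) ?_
  refine oddMap_of hN0 A hAn co ph (fun q => mol ρ q.1) κ K (b + δ) m (B ^ (1 / P)) hκ0 hκ1
    (hΛ.trans hΛK) (by positivity) hm hgeo ?_ ?_ ?_ ?_ ?_ hBP.le ?_
  · intro q hq x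
    exact kb3 q.1 x
  · intro q hq
    exact (kb1 q.1).2
  · intro q hq x hx
    exact su N δ B ρ hδ hρ p hp b _ hDsub q (hAs hq).1 x hx
  · intro q hq x y
    refine (li N δ B ρ hδ hρ p hp _ q (hAs hq).1 x y).trans ?_
    refine mul_le_mul_of_nonneg_right ?_ (norm_nonneg _)
    exact (mul_le_mul_of_nonneg_left (hlt q hq).le hBP.le).trans a1
  · intro q hq
    by_contra hno
    push Not at hno
    have := lp N δ B ρ hδ hρ p hp b _ hb hDsub q (hAs hq).1 m (fun x => (hno x).le)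
    rw [(hAs hq).2] at this
    have h1 : δ * ‖q.2‖ ≤ δ * Λ := mul_le_mul_of_nonneg_left (hlt q hq).le hδ.le
    linarith
  · intro q hq q' hq' x
    have h1 := (kb1 (q.1 - q'.1)).1 x
    rw [kb2 q.1 q'.1 x] at h1
    refine h1.trans (mul_le_mul_of_nonneg_left ?_ hBP.le)
    rw [← dist_eq_norm]
    exact le_max_left _ _

end Pool.Agent.Helper63.PL
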