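import Mathlib

set_option autoImplicit false

/-!
# Variational eigenvalues of the p-Laplacian (Krasnoselskii genus), in terms of functions
-/

open MeasureTheory Set Filter Topology
open scoped ENNReal ContDiff

namespace Pool.Agent.Helper63.Plain

/-- Euclidean space of dimension `N`. -/
abbrev E (N : ℕ) : Type := EuclideanSpace ℝ (Fin N)

/-- Pairs `(u, v)` of a real valued and a vector valued function on `ℝ^N`. -/
abbrev Fn (N : ℕ) : Type := (E N → ℝ) × (E N → E N)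

/-- The distance `‖u - u'‖_p + ‖v - v'‖_p` of two pairs. -/
noncomputable def dst {N : ℕ} (p : ℝ≥0∞) (q r : Fn N) : ℝ≥0∞ :=
  eLpNorm (fun x => q.1 x - r.1 x) p volume + eLpNorm (fun x => q.2 x - r.2 x) p volume

/-- The pairs `(φ, ∇φ)` with `φ` smooth and compactly supported in `D`. -/
def TestPairs {N : ℕ} (D : Set (E N)) : Set (Fn N) :=
  {q | ContDiff ℝ ∞ q.1 ∧ HasCompactSupport q.1 ∧ tsupport q.1 ⊆ D ∧
    ∀ x, HasGradientAt q.1 (q.2 x) x}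

/-- The graph of the gradient on `W_0^{1,p}(D)`: pairs of `L^p` functions that are limits, in
`L^p × L^p`, of pairs `(φ, ∇φ)` with `φ` smooth and compactly supported in `D`. -/
def W0 {N : ℕ} (p : ℝ≥0∞) (D : Set (E N)) : Set (Fn N) :=
  {q | MemLp q.1 p volume ∧ MemLp q.2 p volume ∧
    ∀ ε : ℝ≥0∞, 0 < ε → ∃ t ∈ TestPairs D, dst p q t < ε}

/-- The sphere `S_p(D)` of all `(u, ∇u)`, `u ∈ W_0^{1,p}(D)`, with `‖u‖_p = 1`. -/
def Sph {N : ℕ} (p : ℝ≥0∞) (D : Set (E N)) : Set (Fn N) :=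
  {q | q ∈ W0 p D ∧ eLpNorm q.1 p volume = 1}

/-- The energy `∫ |∇u|^p`. -/
noncomputable def energy {N : ℕ} (p : ℝ≥0∞) (q : Fn N) : ℝ≥0∞ :=
  ∫⁻ x, ‖q.2 x‖ₑ ^ p.toReal

/-- Compactness for the distance `dst p`: every sequence in `A` has a subsequence converging to
an element of `A`. -/
def SeqComp {N : ℕ} (p : ℝ≥0∞) (A : Set (Fn N)) : Prop :=
  ∀ a : ℕ → Fn N, (∀ n, a n ∈ A) → ∃ q ∈ A, ∃ m : ℕ → ℕ, StrictMono m ∧
    Tendsto (fun n => dst p (a (m n)) q) atTop (𝓝 0)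

/-- There is a map from `A` to the unit sphere of `ℝ^k`, odd and continuous for `dst p`. -/
def OddMap {N : ℕ} (p : ℝ≥0∞) (A : Set (Fn N)) (k : ℕ) : Prop :=
  ∃ f : Fn N → E k, (∀ q ∈ A, f (-q) = - f q ∧ ‖f q‖ = 1) ∧
    ∀ q ∈ A, ∀ ε : ℝ, 0 < ε → ∃ δ : ℝ≥0∞, 0 < δ ∧ ∀ r ∈ A, dst p q r < δ → dist (f q) (f r) < ε

/-- The class `Γ_k` of compact symmetric subsets of `S_p(D)` of Krasnoselskii genus at
least `k`. -/
def Gam {N : ℕ} (p : ℝ≥0∞) (D : Set (E N)) (k : ℕ) : Set (Set (Fn N)) :=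
  {A | A ⊆ Sph p D ∧ SeqComp p A ∧ (∀ q ∈ A, -q ∈ A) ∧ ∀ j < k, ¬ OddMap p A j}

/-- The variational eigenvalue `λ_k(p; D)`. -/
noncomputable def lam {N : ℕ} (p : ℝ≥0∞) (D : Set (E N)) (k : ℕ) : ℝ≥0∞ :=
  ⨅ A ∈ Gam p D k, ⨆ q ∈ A, energy p q

/-- The radially symmetric domain `a < |x| < b` (a ball if `a < 0`). -/
def Rad (N : ℕ) (a b : ℝ) : Set (E N) := {x | a < ‖x‖ ∧ ‖x‖ < b}

/-- The half `x_i > 0` of `D`. -/
def half {N : ℕ} (D : Set (E N)) (i : Fin N) : Set (E N) := {x | x ∈ D ∧ 0 < x i}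

end Pool.Agent.Helper63.Plain
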