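import Pool.Agent.Helper63.PL.Defs
import Pool.Agent.Helper63.PL.Plain

set_option autoImplicit false

/-!
# The function version and the `Lp` version of the variational eigenvalues agree
-/

open MeasureTheory Set Filter Topology
open scoped ENNReal ContDiff

namespace Pool.Agent.Helper63.PLBridge

open Pool.Agent.Helper63

variable {N : ℕ} {p : ℝ≥0∞}

/-- Both components are in `L^p`. -/
def Mem (p : ℝ≥0∞) (q : Plain.Fn N) : Prop :=
  MemLp q.1 p (volume : Measure (Plain.E N)) ∧ MemLp q.2 p (volume : Measure (Plain.E N))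

open Classical in
/-- The pair of classes. -/
noncomputable def cl (p : ℝ≥0∞) (q : Plain.Fn N) : PL.Pair N p :=
  if h : Mem p q then (h.1.toLp q.1, h.2.toLp q.2) else 0

theorem cl_eq {q : Plain.Fn N} (h : Mem p q) : cl p q = (h.1.toLp q.1, h.2.toLp q.2) := by
  unfold cl; rw [dif_pos h]

/-- Representatives. -/
noncomputable def rep (x : PL.Pair N p) : Plain.Fn N := (fun y => x.1 y, fun y => x.2 y)

theorem mem_rep (x : PL.Pair N p) : Mem p (rep x) := ⟨Lp.memLp x.1, Lp.memLp x.2⟩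

theorem cl_rep (x : PL.Pair N p) : cl p (rep x) = x := by
  rw [cl_eq (mem_rep x)]
  refine Prod.ext ?_ ?_
  · exact Lp.toLp_coeFn x.1 (Lp.memLp x.1)
  · exact Lp.toLp_coeFn x.2 (Lp.memLp x.2)

theorem mem_neg {q : Plain.Fn N} (h : Mem p q) : Mem p (-q) := ⟨h.1.neg, h.2.neg⟩

theorem cl_neg {q : Plain.Fn N} (h : Mem p q) : cl p (-q) = - cl p q := by
  rw [cl_eq h, cl_eq (mem_neg h)]
  rfl

section
variable [Fact (1 ≤ p)]

theorem edist_fst {q r : Plain.Fn N} (h : Mem p q) (h' : Mem p r) :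
    edist (cl p q).1 (cl p r).1 = eLpNorm (fun x => q.1 x - r.1 x) p volume := by
  rw [cl_eq h, cl_eq h']
  exact Lp.edist_toLp_toLp _ _ h.1 h'.1

theorem edist_snd {q r : Plain.Fn N} (h : Mem p q) (h' : Mem p r) :
    edist (cl p q).2 (cl p r).2 = eLpNorm (fun x => q.2 x - r.2 x) p volume := by
  rw [cl_eq h, cl_eq h']
  exact Lp.edist_toLp_toLp _ _ h.2 h'.2

theorem edist_le {q r : Plain.Fn N} (h : Mem p q) (h' : Mem p r) :
    edist (cl p q) (cl p r) ≤ Plain.dst p q r := by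
  rw [Prod.edist_eq, edist_fst h h', edist_snd h h']
  exact max_le le_self_add le_add_self

theorem dst_le {q r : Plain.Fn N} (h : Mem p q) (h' : Mem p r) :
    Plain.dst p q r ≤ 2 * edist (cl p q) (cl p r) := by
  unfold Plain.dst
  rw [← edist_fst h h', ← edist_snd h h', Prod.edist_eq, two_mul]
  exact add_le_add (le_max_left _ _) (le_max_right _ _)

theorem mem_test {D : Set (Plain.E N)} {t : Plain.Fn N} (h : t ∈ Plain.TestPairs D) :
    Mem p t ∧ cl p t ∈ PL.TestPairs N p D := by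
  obtain ⟨h1, h2, h3, h4⟩ := h
  have hg : t.2 = gradient t.1 := by
    funext x
    exact (h4 x).gradient.symm
  have hm1 : MemLp t.1 p (volume : Measure (Plain.E N)) :=
    h1.continuous.memLp_of_hasCompactSupport h2
  have hgc : Continuous (gradient t.1) := by
    have : Continuous (fderiv ℝ t.1) := h1.continuous_fderiv (by simp)
    exact (InnerProductSpace.toDual ℝ (Plain.E N)).symm.continuous.comp this
  have hgs : HasCompactSupport (gradient t.1) := by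
    refine h2.mono' ?_
    intro x hx
    by_contra hcon
    apply hx
    have hz : t.1 =ᶠ[𝓝 x] fun _ => (0 : ℝ) := notMem_tsupport_iff_eventuallyEq.1 hcon
    have : fderiv ℝ t.1 x = 0 := by
      rw [hz.fderiv_eq]; simp
    change (InnerProductSpace.toDual ℝ (Plain.E N)).symm (fderiv ℝ t.1 x) = 0
    rw [this, map_zero]
  have hm2 : MemLp t.2 p (volume : Measure (Plain.E N)) := by
    rw [hg]
    exact hgc.memLp_of_hasCompactSupport hgs
  refine ⟨⟨hm1, hm2⟩, t.1, h1, h2, h3, ?_, ?_⟩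
  · rw [cl_eq ⟨hm1, hm2⟩]
    exact hm1.coeFn_toLp
  · rw [cl_eq ⟨hm1, hm2⟩]
    filter_upwards [hm2.coeFn_toLp] with x hx
    rw [hx, hg]

theorem test_of {D : Set (Plain.E N)} {x : PL.Pair N p} (h : x ∈ PL.TestPairs N p D) :
    ∃ t ∈ Plain.TestPairs D, Mem p t ∧ cl p t = x := by
  obtain ⟨φ, h1, h2, h3, h4, h5⟩ := h
  have ht : ((φ, gradient φ) : Plain.Fn N) ∈ Plain.TestPairs D := by
    refine ⟨h1, h2, h3, fun y => ?_⟩
    exact ((h1.differentiable (by simp)) y).hasGradientAt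
  obtain ⟨hm, -⟩ := mem_test (p := p) ht
  refine ⟨_, ht, hm, ?_⟩
  rw [cl_eq hm]
  refine Prod.ext ?_ ?_
  · refine Lp.ext ?_
    filter_upwards [hm.1.coeFn_toLp, h4] with y hy hy'
    rw [hy, hy']
  · refine Lp.ext ?_
    filter_upwards [hm.2.coeFn_toLp, h5] with y hy hy'
    rw [hy, hy']

theorem W0_iff {D : Set (Plain.E N)} {q : Plain.Fn N} :
    q ∈ Plain.W0 p D ↔ Mem p q ∧ cl p q ∈ PL.W0 N p D := by
  constructor
  · rintro ⟨h1, h2, h3⟩
    refine ⟨⟨h1, h2⟩, ?_⟩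
    unfold PL.W0
    rw [EMetric.mem_closure_iff]
    intro ε hε
    obtain ⟨t, ht, hd⟩ := h3 ε hε
    obtain ⟨hm, hc⟩ := mem_test (p := p) ht
    exact ⟨cl p t, hc, lt_of_le_of_lt (edist_le ⟨h1, h2⟩ hm) hd⟩
  · rintro ⟨⟨h1, h2⟩, h3⟩
    refine ⟨h1, h2, ?_⟩
    unfold PL.W0 at h3
    rw [EMetric.mem_closure_iff] at h3
    intro ε hε
    obtain ⟨x, hx, hd⟩ := h3 (ε / 2) (ENNReal.half_pos hε.ne')
    obtain ⟨t, ht, hm, rfl⟩ := test_of hx
    refine ⟨t, ht, lt_of_le_of_lt (dst_le ⟨h1, h2⟩ hm) ?_⟩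
    rw [mul_comm]
    exact ENNReal.mul_lt_of_lt_div hd

theorem norm_iff {q : Plain.Fn N} (h : Mem p q) :
    eLpNorm q.1 p (volume : Measure (Plain.E N)) = 1 ↔ ‖(cl p q).1‖ = 1 := by
  rw [cl_eq h, Lp.norm_toLp]
  constructor
  · intro h1
    rw [h1]; simp
  · intro h1
    rw [← ENNReal.ofReal_toReal h.1.eLpNorm_ne_top, h1]; simp

theorem Sph_iff {D : Set (Plain.E N)} {q : Plain.Fn N} :
    q ∈ Plain.Sph p D ↔ Mem p q ∧ cl p q ∈ PL.Sph N p D := by
  constructor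
  · rintro ⟨h1, h2⟩
    obtain ⟨hm, hw⟩ := W0_iff.1 h1
    exact ⟨hm, hw, (norm_iff hm).1 h2⟩
  · rintro ⟨hm, hw, h2⟩
    exact ⟨W0_iff.2 ⟨hm, hw⟩, (norm_iff hm).2 h2⟩

theorem energy_eq (hp : p ≠ ⊤) {q : Plain.Fn N} (h : Mem p q) :
    Plain.energy p q = PL.energy (cl p q) := by
  have hp0 : p ≠ 0 := by
    have : (1 : ℝ≥0∞) ≤ p := Fact.out
    exact (lt_of_lt_of_le one_pos this).ne'
  have hpr : 0 < p.toReal := ENNReal.toReal_pos hp0 hp
  unfold Plain.energy PL.energy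
  rw [cl_eq h, Lp.norm_toLp, ENNReal.toReal_rpow, ENNReal.ofReal_toReal
    (ENNReal.rpow_ne_top_of_nonneg hpr.le h.2.eLpNorm_ne_top),
    eLpNorm_eq_lintegral_rpow_enorm_toReal hp0 hp, ← ENNReal.rpow_mul, one_div,
    inv_mul_cancel₀ hpr.ne', ENNReal.rpow_one]

theorem oddMap_to {D : Set (Plain.E N)} {A : Set (Plain.Fn N)} (hA : A ⊆ Plain.Sph p D) (j : ℕ)
    (h : PL.OddMap (cl p '' A) j) : Plain.OddMap p A j := by
  obtain ⟨g, hg, hodd, hone⟩ := h
  have hm : ∀ q ∈ A, Mem p q := fun q hq => (Sph_iff.1 (hA hq)).1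
  refine ⟨fun q => g (cl p q), ?_, ?_⟩
  · intro q hq
    refine ⟨?_, hone _ ⟨q, hq, rfl⟩⟩
    change g (cl p (-q)) = _
    rw [cl_neg (hm q hq), hodd _ ⟨q, hq, rfl⟩]
  · intro q hq ε hε
    have hc := hg (cl p q) ⟨q, hq, rfl⟩
    rw [ContinuousWithinAt, EMetric.tendsto_nhdsWithin_nhds] at hc
    obtain ⟨δ, hδ, h2⟩ := hc (ENNReal.ofReal ε) (by simpa using hε)
    refine ⟨δ, hδ, fun r hr hd => ?_⟩
    have h3 : edist (cl p r) (cl p q) < δ := by
      rw [edist_comm]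
      exact lt_of_le_of_lt (edist_le (hm q hq) (hm r hr)) hd
    have h4 := h2 ⟨r, hr, rfl⟩ h3
    rw [edist_comm, edist_dist, ENNReal.ofReal_lt_ofReal_iff hε] at h4
    exact h4

theorem eq_of_dst {A : Set (Plain.Fn N)} {j : ℕ} {f : Plain.Fn N → Plain.E j}
    (hf : ∀ q ∈ A, ∀ ε : ℝ, 0 < ε → ∃ δ : ℝ≥0∞, 0 < δ ∧ ∀ r ∈ A, Plain.dst p q r < δ →
      dist (f q) (f r) < ε) {q r : Plain.Fn N} (hq : q ∈ A) (hr : r ∈ A)
    (h : Plain.dst p q r = 0) : f q = f r := by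
  by_contra hne
  have hpos : 0 < dist (f q) (f r) := dist_pos.2 hne
  obtain ⟨δ, hδ, h2⟩ := hf q hq _ hpos
  exact absurd (h2 r hr (by rw [h]; exact hδ)) (lt_irrefl _)

theorem oddMap_of {A : Set (PL.Pair N p)} (hA : ∀ x ∈ A, -x ∈ A) (j : ℕ)
    (h : Plain.OddMap p {q | Mem p q ∧ cl p q ∈ A} j) : PL.OddMap A j := by
  obtain ⟨f, hodd, hf⟩ := h
  have hin : ∀ x ∈ A, rep x ∈ {q : Plain.Fn N | Mem p q ∧ cl p q ∈ A} := fun x hx =>
    ⟨mem_rep x, by rw [cl_rep]; exact hx⟩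
  have hzero : ∀ q r : Plain.Fn N, Mem p q → Mem p r → cl p q = cl p r →
      Plain.dst p q r = 0 := by
    intro q r h1 h2 h3
    have := dst_le h1 h2
    rw [h3, edist_self, mul_zero] at this
    exact le_antisymm this bot_le
  refine ⟨fun x => f (rep x), ?_, ?_, ?_⟩
  · intro x hx
    rw [ContinuousWithinAt, EMetric.tendsto_nhdsWithin_nhds]
    intro ε hε
    obtain ⟨ε', hε', hε''⟩ : ∃ ε' : ℝ, 0 < ε' ∧ ENNReal.ofReal ε' ≤ ε := by
      rcases eq_or_ne ε ⊤ with rfl | hne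
      · exact ⟨1, one_pos, le_top⟩
      · exact ⟨ε.toReal, ENNReal.toReal_pos hε.ne' hne, by rw [ENNReal.ofReal_toReal hne]⟩
    obtain ⟨δ, hδ, h2⟩ := hf (rep x) (hin x hx) ε' hε'
    refine ⟨δ / 2, ENNReal.half_pos hδ.ne', fun {y} hy hd => ?_⟩
    have h3 : Plain.dst p (rep x) (rep y) < δ := by
      refine lt_of_le_of_lt (dst_le (mem_rep x) (mem_rep y)) ?_
      rw [cl_rep, cl_rep, mul_comm, edist_comm]
      exact ENNReal.mul_lt_of_lt_div hd
    have h4 := h2 _ (hin y hy) h3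
    rw [edist_comm, edist_dist]
    exact lt_of_lt_of_le ((ENNReal.ofReal_lt_ofReal_iff hε').2 h4) hε''
  · intro x hx
    have h1 := (hodd (rep x) (hin x hx)).1
    change f (rep (-x)) = - f (rep x)
    rw [← h1]
    refine eq_of_dst hf (hin _ (hA x hx)) ?_ ?_
    · refine ⟨mem_neg (mem_rep x), ?_⟩
      rw [cl_neg (mem_rep x), cl_rep]
      exact hA x hx
    · refine hzero _ _ (mem_rep _) (mem_neg (mem_rep x)) ?_
      rw [cl_neg (mem_rep x), cl_rep, cl_rep]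
  · intro x hx
    exact (hodd (rep x) (hin x hx)).2

theorem lam_le (hp : p ≠ ⊤) (D : Set (Plain.E N)) (k : ℕ) : Plain.lam p D k ≤ PL.lam N p D k := by
  unfold PL.lam
  refine le_iInf₂ fun A hA => ?_
  obtain ⟨hAs, hAc, hAn, hAg⟩ := hA
  have hmem : {q : Plain.Fn N | Mem p q ∧ cl p q ∈ A} ∈ Plain.Gam p D k := by
    refine ⟨?_, ?_, ?_, ?_⟩
    · rintro q ⟨h1, h2⟩
      exact Sph_iff.2 ⟨h1, hAs h2⟩
    · intro a ha
      obtain ⟨x, hx, m, hm, hlim⟩ := hAc.isSeqCompact (x := fun n => cl p (a n))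
        (fun n => (ha n).2)
      refine ⟨rep x, ⟨mem_rep x, by rw [cl_rep]; exact hx⟩, m, hm, ?_⟩
      rw [tendsto_iff_edist_tendsto_0] at hlim
      have h2 : Tendsto (fun n => 2 * edist (cl p (a (m n))) x) atTop (𝓝 (2 * 0)) :=
        ENNReal.Tendsto.const_mul hlim (Or.inr (by simp))
      rw [mul_zero] at h2
      refine tendsto_of_tendsto_of_tendsto_of_le_of_le tendsto_const_nhds h2
        (fun n => bot_le) (fun n => ?_)
      have := dst_le (ha (m n)).1 (mem_rep x)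
      rwa [cl_rep] at this
    · rintro q ⟨h1, h2⟩
      exact ⟨mem_neg h1, by rw [cl_neg h1]; exact hAn _ h2⟩
    · intro j hj hcon
      exact hAg j hj (oddMap_of hAn j hcon)
  refine (iInf₂_le _ hmem).trans ?_
  refine iSup₂_le fun q hq => ?_
  rw [energy_eq hp hq.1]
  exact le_iSup₂ (f := fun x (_ : x ∈ A) => PL.energy x) (cl p q) hq.2

theorem le_lam (hp : p ≠ ⊤) (D : Set (Plain.E N)) (k : ℕ) : PL.lam N p D k ≤ Plain.lam p D k := by
  unfold Plain.lam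
  refine le_iInf₂ fun A hA => ?_
  obtain ⟨hAs, hAc, hAn, hAg⟩ := hA
  have hm : ∀ q ∈ A, Mem p q := fun q hq => (Sph_iff.1 (hAs hq)).1
  have hmem : cl p '' A ∈ PL.Gam N p D k := by
    refine ⟨?_, ?_, ?_, ?_⟩
    · rintro _ ⟨q, hq, rfl⟩
      exact (Sph_iff.1 (hAs hq)).2
    · apply IsSeqCompact.isCompact
      intro x hx
      choose a ha hax using hx
      obtain ⟨q, hq, m, hmm, hlim⟩ := hAc a ha
      refine ⟨cl p q, ⟨q, hq, rfl⟩, m, hmm, ?_⟩
      rw [tendsto_iff_edist_tendsto_0]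
      refine tendsto_of_tendsto_of_tendsto_of_le_of_le tendsto_const_nhds hlim
        (fun n => bot_le) (fun n => ?_)
      change edist (x (m n)) _ ≤ _
      rw [← hax (m n)]
      exact edist_le (hm _ (ha _)) (hm _ hq)
    · rintro _ ⟨q, hq, rfl⟩
      exact ⟨-q, hAn q hq, cl_neg (hm q hq)⟩
    · intro j hj hcon
      exact hAg j hj (oddMap_to hAs j hcon)
  refine (iInf₂_le _ hmem).trans ?_
  refine iSup₂_le fun x hx => ?_
  obtain ⟨q, hq, rfl⟩ := hx
  rw [← energy_eq hp (hm q hq)]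
  exact le_iSup₂ (f := fun q (_ : q ∈ A) => Plain.energy p q) q hq

theorem lam_eq (hp : p ≠ ⊤) (D : Set (Plain.E N)) (k : ℕ) : Plain.lam p D k = PL.lam N p D k :=
  le_antisymm (lam_le hp D k) (le_lam hp D k)

end

end Pool.Agent.Helper63.PLBridge
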