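import Mathlib

set_option autoImplicit false

/-!
# Variational eigenvalues of the p-Laplacian (Krasnoselskii genus)

Definitions for MP_32e3a9_an.
-/

open MeasureTheory Set
open scoped ENNReal ContDiff

namespace Pool.Agent.Helper63.PL

/-- Euclidean space of dimension `N`. -/
abbrev E (N : ℕ) : Type := EuclideanSpace ℝ (Fin N)

/-- Pairs `(u, v)` of a real valued and a vector valued `L^p` function on `ℝ^N`. -/
abbrev Pair (N : ℕ) (p : ℝ≥0∞) : Type :=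
  Lp ℝ p (volume : Measure (E N)) × Lp (E N) p (volume : Measure (E N))

/-- The pairs `(φ, ∇φ)` with `φ` smooth and compactly supported in `D`. -/
def TestPairs (N : ℕ) (p : ℝ≥0∞) (D : Set (E N)) : Set (Pair N p) :=
  {q | ∃ φ : E N → ℝ, ContDiff ℝ ∞ φ ∧ HasCompactSupport φ ∧ tsupport φ ⊆ D ∧
      (∀ᵐ x, q.1 x = φ x) ∧ ∀ᵐ x, q.2 x = gradient φ x}

/-- The graph of the gradient on `W_0^{1,p}(D)`: the closure, in `L^p × L^p`, of the pairs
`(φ, ∇φ)` with `φ` smooth and compactly supported in `D`. -/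
def W0 (N : ℕ) (p : ℝ≥0∞) [Fact (1 ≤ p)] (D : Set (E N)) : Set (Pair N p) :=
  closure (TestPairs N p D)

/-- The sphere `S_p(D)` of all `(u, ∇u)`, `u ∈ W_0^{1,p}(D)`, with `‖u‖_p = 1`. -/
def Sph (N : ℕ) (p : ℝ≥0∞) [Fact (1 ≤ p)] (D : Set (E N)) : Set (Pair N p) :=
  {q | q ∈ W0 N p D ∧ ‖q.1‖ = 1}

/-- The energy `∫ |∇u|^p`. -/
noncomputable def energy {N : ℕ} {p : ℝ≥0∞} [Fact (1 ≤ p)] (q : Pair N p) : ℝ≥0∞ :=
  ENNReal.ofReal (‖q.2‖ ^ p.toReal)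

/-- There is a continuous odd map from `A` to the unit sphere of `ℝ^k`. -/
def OddMap {X : Type} [TopologicalSpace X] [Neg X] (A : Set X) (k : ℕ) : Prop :=
  ∃ f : X → E k, ContinuousOn f A ∧ (∀ x ∈ A, f (-x) = - f x) ∧ ∀ x ∈ A, ‖f x‖ = 1

/-- The Krasnoselskii genus of `A` is at least `k`. -/
def GenusGE {X : Type} [TopologicalSpace X] [Neg X] (A : Set X) (k : ℕ) : Prop :=
  ∀ j < k, ¬ OddMap A j

/-- The class `Γ_k` of compact symmetric subsets of `S_p(D)` of genus at least `k`. -/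
def Gam (N : ℕ) (p : ℝ≥0∞) [Fact (1 ≤ p)] (D : Set (E N)) (k : ℕ) : Set (Set (Pair N p)) :=
  {A | A ⊆ Sph N p D ∧ IsCompact A ∧ (∀ q ∈ A, -q ∈ A) ∧ GenusGE A k}

/-- The variational eigenvalue `λ_k(p; D)`. -/
noncomputable def lam (N : ℕ) (p : ℝ≥0∞) [Fact (1 ≤ p)] (D : Set (E N)) (k : ℕ) : ℝ≥0∞ :=
  ⨅ A ∈ Gam N p D k, ⨆ q ∈ A, energy q

/-- The radially symmetric domain `a < |x| < b` (a ball if `a < 0`). -/
def Rad (N : ℕ) (a b : ℝ) : Set (E N) := {x | a < ‖x‖ ∧ ‖x‖ < b}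

/-- The half `x_i > 0` of `D`. -/
def half {N : ℕ} (D : Set (E N)) (i : Fin N) : Set (E N) := {x | x ∈ D ∧ 0 < x i}

end Pool.Agent.Helper63.PL
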