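import Pool.Agent.Helper63.PL.Defs

set_option autoImplicit false

/-!
# Statements of the pieces (MP_32e3a9_an, large p)
-/

open MeasureTheory Set
open scoped ENNReal ContDiff

namespace Pool.Agent.Helper63.PL

/-- Supremum of a function. -/
noncomputable def Mx {N : ℕ} (f : E N → ℝ) : ℝ := ⨆ x, f x

/-- The vector `∫ (f(x) - (1-κ) sup f)_+ x dx`. -/
noncomputable def cen {N : ℕ} (κ : ℝ) (f : E N → ℝ) : E N :=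
  ∫ x, (max (f x - (1 - κ) * Mx f) 0) • x

/-- A smooth even probability kernel supported in the ball of radius `δ` and bounded by `B`. -/
structure IsKernel (N : ℕ) (δ B : ℝ) (ρ : E N → ℝ) : Prop where
  smooth : ContDiff ℝ ∞ ρ
  compact : HasCompactSupport ρ
  nonneg : ∀ z, 0 ≤ ρ z
  le : ∀ z, ρ z ≤ B
  zero : ∀ z, δ ≤ ‖z‖ → ρ z = 0
  integral : ∫ z, ρ z = 1

/-- Mollification `(ρ * u)(x)`. -/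
noncomputable def mol {N : ℕ} (ρ : E N → ℝ) (u : E N → ℝ) (x : E N) : ℝ :=
  ∫ y, ρ (x - y) * u y

/-- PACKET PH. -/
def PhStmt : Prop :=
  ∀ (N : ℕ), 0 < N → ∀ κ K B m : ℝ, 0 < κ → κ < 1 → 0 < K → 0 < B → 0 < m →
    (√2 - 1) * B < m * (1 - κ) / K →
    ∀ f : E N → ℝ, (∀ x y, |f x - f y| ≤ K * ‖x - y‖) → (∀ x, B < ‖x‖ → f x = 0) →
      (∃ x, m ≤ |f x|) → Mx f = Mx (fun x => - f x) →
      cen κ f ≠ cen κ (fun x => - f x)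

/-- PACKET CO. -/
def CoStmt : Prop :=
  (∀ (N : ℕ) (f g : E N → ℝ) (s : ℝ), BddAbove (Set.range f) → BddAbove (Set.range g) →
      (∀ x, |f x - g x| ≤ s) → |Mx f - Mx g| ≤ s) ∧
  ∀ (N : ℕ), 0 < N → ∀ κ B : ℝ, 0 < κ → κ < 1 → 0 < B → ∃ C : ℝ, 0 ≤ C ∧
    ∀ f g : E N → ℝ, Continuous f → Continuous g → (∀ x, B < ‖x‖ → f x = 0) →
      (∀ x, B < ‖x‖ → g x = 0) → ∀ s : ℝ, (∀ x, |f x - g x| ≤ s) →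
      ‖cen κ f - cen κ g‖ ≤ C * s

/-- PACKET KE. -/
def KeStmt : Prop :=
  (∀ (N : ℕ) (δ : ℝ), 0 < δ → ∃ B : ℝ, 1 ≤ B ∧ ∃ ρ : E N → ℝ, IsKernel N δ B ρ) ∧
  (∀ (N : ℕ) (δ B : ℝ) (ρ : E N → ℝ), 0 < δ → IsKernel N δ B ρ →
    ∀ (p : ℝ≥0∞) [Fact (1 ≤ p)], p ≠ ⊤ →
      (∀ u : Lp ℝ p (volume : Measure (E N)), (∀ x, |mol ρ u x| ≤ B ^ (1 / p.toReal) * ‖u‖) ∧
        Continuous (mol ρ u)) ∧
      (∀ u v : Lp ℝ p (volume : Measure (E N)), ∀ x, mol ρ (u - v : Lp ℝ p _) x =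
        mol ρ u x - mol ρ v x) ∧
      (∀ u : Lp ℝ p (volume : Measure (E N)), ∀ x, mol ρ (-u : Lp ℝ p _) x = - mol ρ u x))

/-- PACKET SU. -/
def SuStmt : Prop :=
  ∀ (N : ℕ) (δ B : ℝ) (ρ : E N → ℝ), 0 < δ → IsKernel N δ B ρ →
    ∀ (p : ℝ≥0∞) [Fact (1 ≤ p)], p ≠ ⊤ → ∀ (b : ℝ) (D : Set (E N)),
      D ⊆ Metric.ball 0 b → ∀ q ∈ W0 N p D, ∀ x, b + δ < ‖x‖ → mol ρ q.1 x = 0

/-- PACKET LI. -/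
def LiStmt : Prop :=
  ∀ (N : ℕ) (δ B : ℝ) (ρ : E N → ℝ), 0 < δ → IsKernel N δ B ρ →
    ∀ (p : ℝ≥0∞) [Fact (1 ≤ p)], p ≠ ⊤ → ∀ (D : Set (E N)), ∀ q ∈ W0 N p D, ∀ x x',
      |mol ρ q.1 x - mol ρ q.1 x'| ≤ B ^ (1 / p.toReal) * ‖q.2‖ * ‖x - x'‖

/-- PACKET LP. -/
def LpStmt : Prop :=
  ∀ (N : ℕ) (δ B : ℝ) (ρ : E N → ℝ), 0 < δ → IsKernel N δ B ρ →
    ∀ (p : ℝ≥0∞) [Fact (1 ≤ p)], p ≠ ⊤ → ∀ (b : ℝ) (D : Set (E N)), 0 < b →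
      D ⊆ Metric.ball 0 b → ∀ q ∈ W0 N p D, ∀ s : ℝ, (∀ x, |mol ρ q.1 x| ≤ s) →
      ‖q.1‖ ≤ δ * ‖q.2‖ +
        s * (volume (Metric.closedBall (0 : E N) (b + δ))).toReal ^ (1 / p.toReal)

/-- PACKET UP. -/
def UpStmt : Prop :=
  ∀ (N : ℕ), 0 < N → ∀ (D : Set (E N)) (x₀ : E N) (w θ : ℝ), 0 < w → 0 < θ → θ < 1 →
    Metric.ball x₀ w ⊆ D → ∃ C : ℝ, ∀ (p : ℝ≥0∞) [Fact (1 ≤ p)], p ≠ ⊤ →
      lam N p D 1 ≤ ENNReal.ofReal (C * (1 / (θ * w)) ^ p.toReal)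

/-- PACKET GE. -/
def GeStmt : Prop :=
  ∀ (N : ℕ) (i : Fin N) (a b : ℝ), 0 < b → a < (3 - 2 * √2) * b →
    ∃ (w : ℝ) (x₀ : E N), 0 < w ∧ (√2 - 1) * b < w ∧
      Metric.ball x₀ w ⊆ half (Rad N a b) i

/-- The final statement. -/
def FinalStmt : Prop :=
  ∀ (N : ℕ), 2 ≤ N → ∀ (i : Fin N) (a b : ℝ), 0 < b → a < (3 - 2 * √2) * b →
    ∃ p₀ : ℝ, ∀ (p : ℝ≥0∞) [Fact (1 ≤ p)], p ≠ ⊤ → p₀ ≤ p.toReal →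
      lam N p (half (Rad N a b) i) 1 < lam N p (Rad N a b) (N + 2)

end Pool.Agent.Helper63.PL
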